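import Mathlib
import Pool.Agent.Helper35.MS.StK

set_option autoImplicit false

namespace Helper76.MS

open Helper35.MS Helper35.PI Helper35.PI2 Helper32.CL
open scoped ContDiff Manifold Topology ENNReal BigOperators
open MeasureTheory Set Filter

private theorem sgm_smul {N : ℕ} (f g : EE 2 → EE N) (r : ℝ) (hr : 0 < r)
    (h : g = fun x => r • f x) (y : EE 2) : sgm g y = r ^ 2 * sgm f y := by
  have h1 : ∀ i, dv1 g y i = r • dv1 f y i := by
    intro i
    unfold dv1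
    have h2 : g = r • f := h
    rw [h2, fderiv_const_smul_field]
    rfl
  have h3 : gram g y = r ^ 2 • gram f y := by
    ext i j
    simp only [gram, Matrix.of_apply, Matrix.smul_apply, smul_eq_mul, h1, inner_smul_left,
      inner_smul_right]
    simp only [conj_trivial]
    ring
  unfold sgm
  rw [h3, Matrix.det_smul, Fintype.card_fin, Real.sqrt_mul (by positivity)]
  congr 1
  exact Real.sqrt_sq (by positivity)

private theorem ar_scale (hMUJ : StMUJ) {N : ℕ} {M : Type} [TopologicalSpace M] [T2Space M]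
    [CompactSpace M] [MeasurableSpace M] [BorelSpace M] [ChartedSpace (EE 2) M]
    [IsManifold (𝓡 2) ∞ M] (J J' : Set ℝ) (F G : M → ℝ → EE N) (c : ℕ → M) (χ : ℕ → M → ℝ)
    (hF : SetupJ 2 J F c χ) (hG : SetupJ 2 J' G c χ) (t s : ℝ) (ht : t ∈ J) (hs : s ∈ J') (r : ℝ)
    (hr : 0 < r) (h : ∀ q, G q s = r • F q t) :
    arI G c χ s = r ^ 2 * arI F c χ t := by
  obtain ⟨_, -, h1⟩ := hMUJ 2 N M J F c χ hF
  obtain ⟨_, -, h2⟩ := hMUJ 2 N M J' G c χ hG
  have e1 := (h1 t ht).2.1 (fun _ => 1) measurable_const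
  have e2 := (h2 s hs).2.1 (fun _ => 1) measurable_const
  rw [lintegral_one] at e1 e2
  have e3 : Lam (n := 2) G c χ s (fun _ => 1)
      = ENNReal.ofReal (r ^ 2) * Lam (n := 2) F c χ t (fun _ => 1) := by
    unfold Lam
    rw [← ENNReal.tsum_mul_left]
    congr 1
    funext i
    rw [← lintegral_const_mul' _ _ ENNReal.ofReal_ne_top]
    congr 1
    funext y
    have hloc : loc (n := 2) G (c i) s = fun x => r • loc (n := 2) F (c i) t x := by
      funext x
      exact h _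
    rw [sgm_smul _ _ r hr hloc, ENNReal.ofReal_mul (by positivity)]
    ring
  unfold arI
  rw [measureReal_def, measureReal_def, e1, e2, e3, ENNReal.toReal_mul,
    ENNReal.toReal_ofReal (by positivity)]

private theorem neS2 : Nonempty S2 :=
  ⟨⟨EuclideanSpace.single 0 (1 : ℝ), by simp⟩⟩

theorem hINF2 (hINF : StINF) (hDAT : StDAT) (hCNV : StCNV) (hCT0 : StCT0) (hHSQ : StHSQ)
    (hRND : StRND) (hLMS : StLMS) (hINJ : StINJ) (hIN1 : StIN1) (hSCL : StSCL) (hMUJ : StMUJ)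
    (hI4J : StI4J) : StINF2 := by
  intro N F hF hP
  haveI : Nonempty S2 := neS2
  obtain ⟨G, C, α, hG, hα, hest⟩ := hINF N F hF hP
  have hIS : IS (1 / 4) = Ici 0 := by
    ext t
    simp only [IS, sgT, Set.mem_ofPred_eq, mem_Ici]
    refine ⟨fun h => h.1, fun h => ⟨h, ?_⟩⟩
    have := Real.exp_pos (-4 * t)
    linarith
  have hF' : SMCF 2 (IS (1 / 4)) F := by rw [hIS]; exact hF
  obtain ⟨c, χ, δ, hDat, hY⟩ := hDAT N F (1 / 4) (by norm_num) le_rfl hF' hP
  obtain ⟨C1, hC1, h1⟩ := hIN1 N S2 (FEs F) c χ δ hDat hY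
  have hδ := hDat.pi.δ0
  -- time change
  have hτ : ∀ t : ℝ, 1 ≤ t → sgT t ∈ Ico (1 / 8 : ℝ) (1 / 4) ∧ 1 - 4 * sgT t = Real.exp (-4 * t) ∧
      1 / 4 - sgT t = Real.exp (-4 * t) / 4 ∧ tmS (sgT t) = t := by
    intro t ht
    have hpos := Real.exp_pos (-4 * t)
    have hle : Real.exp (-4 * t) ≤ 1 / 2 := by
      have h2 : Real.exp (-4 * t) ≤ Real.exp (-1) := Real.exp_le_exp.2 (by linarith)
      have h3 : (2 : ℝ) ≤ Real.exp 1 := by
        have := Real.add_one_le_exp (1 : ℝ)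
        linarith
      have h4 : Real.exp (-1) * Real.exp 1 = 1 := by rw [← Real.exp_add]; simp
      nlinarith [Real.exp_pos (-1 : ℝ)]
    have e1 : 1 - 4 * sgT t = Real.exp (-4 * t) := by unfold sgT; ring
    refine ⟨⟨?_, ?_⟩, e1, ?_, ?_⟩
    · unfold sgT; linarith
    · unfold sgT; linarith
    · unfold sgT; ring
    · unfold tmS
      rw [e1, Real.log_exp]
      ring
  -- energy
  have hen : ∀ t : ℝ, 1 ≤ t → eI (FEs F) c χ (sgT t) ≤ C1 * (Real.exp (-4 * t) / 4) ^ δ := by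
    intro t ht
    obtain ⟨a1, a2, a3, a4⟩ := hτ t ht
    rw [← a3]
    exact (h1 _ a1).1
  have hgb : ∀ t : ℝ, 1 ≤ t →
      wI (FEs F) c χ (sgT t) = 16 * Real.pi + eI (FEs F) c χ (sgT t) := by
    intro t ht
    obtain ⟨a1, a2, a3, a4⟩ := hτ t ht
    have := hDat.gb (sgT t) ⟨by linarith [a1.1], a1.2⟩
    linarith
  -- limits
  have l1 : Tendsto (fun t : ℝ => C * Real.exp (-α * t)) atTop (𝓝 0) := by
    have h2 : Tendsto (fun t : ℝ => Real.exp (-α * t)) atTop (𝓝 0) := by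
      refine Real.tendsto_exp_atBot.comp ?_
      exact tendsto_id.const_mul_atTop_of_neg (by linarith)
    simpa using h2.const_mul C
  have l2 : Tendsto (fun t : ℝ => C1 * (Real.exp (-4 * t) / 4) ^ δ) atTop (𝓝 0) := by
    have h2 : Tendsto (fun t : ℝ => Real.exp (-4 * t)) atTop (𝓝 0) := by
      refine Real.tendsto_exp_atBot.comp ?_
      exact tendsto_id.const_mul_atTop_of_neg (by norm_num)
    have h3 : Tendsto (fun t : ℝ => Real.exp (-4 * t) / 4) atTop (𝓝 0) := by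
      simpa using h2.div_const 4
    have h4 := (h3.rpow_const (p := δ) (Or.inr hδ.le)).const_mul C1
    rwa [Real.zero_rpow hδ.ne', mul_zero] at h4
  -- area of the frozen family
  have hfroz : ∀ t : ℝ, 0 ≤ t → IsImmJ (n := 2) univ (fun (q : S2) (_ : ℝ) => F q t) :=
    fun t ht => ((hCT0 N S2 (Ici 0) F hF).1 t ht).1
  have hsc : ∀ t : ℝ, 1 ≤ t → ∀ q, FEs F q (sgT t) = Real.sqrt (Real.exp (-4 * t)) • F q t := by
    intro t ht q
    obtain ⟨a1, a2, a3, a4⟩ := hτ t ht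
    unfold FEs
    rw [a2, a4]
  have har : ∀ t : ℝ, 1 ≤ t → arI (fun (q : S2) (_ : ℝ) => F q t) c χ 0
      ≤ 4 * Real.pi + eI (FEs F) c χ (sgT t) / 4 := by
    intro t ht
    obtain ⟨a1, a2, a3, a4⟩ := hτ t ht
    have hpos := Real.exp_pos (-4 * t)
    have e1 := ar_scale hMUJ univ (Ioo 0 (1 / 4)) (fun (q : S2) (_ : ℝ) => F q t) (FEs F) c χ
      ⟨hfroz t (by linarith), hDat.su.pu⟩ hDat.su.toJ 0 (sgT t) (mem_univ _)
      ⟨by linarith [a1.1], a1.2⟩ (Real.sqrt (Real.exp (-4 * t))) (Real.sqrt_pos.2 hpos)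
      (hsc t ht)
    rw [Real.sq_sqrt hpos.le] at e1
    have e2 := (h1 _ a1).2.2.2.1
    rw [e1, hgb t ht, a3] at e2
    have e3 : Real.exp (-4 * t) * arI (fun (q : S2) (_ : ℝ) => F q t) c χ 0
        ≤ Real.exp (-4 * t) * (4 * Real.pi + eI (FEs F) c χ (sgT t) / 4) := by
      refine e2.trans (le_of_eq ?_)
      ring
    exact le_of_mul_le_mul_left e3 hpos
  -- the limit is a round sphere
  have hsph : ∃ L : EE 3 →ₗᵢ[ℝ] EE N, range G = L '' Metric.sphere (0 : EE 3) 1 := by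
    refine hLMS N S2 G hG ?_
    intro η hη
    obtain ⟨ε, hε, hR⟩ := hRND η hη
    have ev1 : ∀ᶠ t : ℝ in atTop, C * Real.exp (-α * t) < η := l1.eventually_lt_const hη
    have ev2 : ∀ᶠ t : ℝ in atTop, C * Real.exp (-α * t) < min (ε ^ 2) ε / 2 :=
      l1.eventually_lt_const (by positivity)
    have ev3 : ∀ᶠ t : ℝ in atTop, C1 * (Real.exp (-4 * t) / 4) ^ δ < 4 * ε :=
      l2.eventually_lt_const (by positivity)
    obtain ⟨t, t1, t2, t3, t4⟩ := (ev1.and (ev2.and (ev3.and (eventually_ge_atTop 1)))).exists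
    have ht0 : (0 : ℝ) ≤ t := by linarith
    obtain ⟨hI, hfr⟩ := (hCT0 N S2 (Ici 0) F hF).1 t ht0
    have hm1 := min_le_left (ε ^ 2) ε
    have hm2 := min_le_right (ε ^ 2) ε
    have key : ∀ q : S2,
        HS (n := 2) (fun (q : S2) (_ : ℝ) => F q t) q 0
          = HH (n := 2) (fun (q : S2) (_ : ℝ) => F q t) q 0 + (2 : ℝ) • F q t ∧
        ‖HS (n := 2) (fun (q : S2) (_ : ℝ) => F q t) q 0‖ ^ 2
          = ‖HH (n := 2) (fun (q : S2) (_ : ℝ) => F q t) q 0‖ ^ 2 - 4 ∧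
        hS2 (n := 2) (fun (q : S2) (_ : ℝ) => F q t) q 0
          = AA (n := 2) (fun (q : S2) (_ : ℝ) => F q t) q 0 - 2 ∧
        ‖HS (n := 2) (fun (q : S2) (_ : ℝ) => F q t) q 0‖ ^ 2
          ≤ 2 * hS2 (n := 2) (fun (q : S2) (_ : ℝ) => F q t) q 0 ∧
        hS2 (n := 2) (fun (q : S2) (_ : ℝ) => F q t) q 0 < min (ε ^ 2) ε / 2 := by
      intro q
      obtain ⟨k1, k2, k3, k4, k5, k6⟩ := hHSQ N S2 univ (fun (q : S2) (_ : ℝ) => F q t) hI 0
        (mem_univ _) (fun q => hF.sph q t ht0) q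
      refine ⟨k1, k3, k4, k6, ?_⟩
      rw [(hfr q 0).2.2.2.2]
      exact lt_of_le_of_lt (hest t ht0 q).2 t2
    obtain ⟨L, hL1, hL2⟩ := hR N S2 univ (fun (q : S2) (_ : ℝ) => F q t) c χ
      ⟨hI, hDat.su.pu⟩ 0 (mem_univ _) (by
        intro q
        obtain ⟨k1, k3, k4, k6, k7⟩ := key q
        rw [← k1]
        have : ‖HS (n := 2) (fun (q : S2) (_ : ℝ) => F q t) q 0‖ ^ 2 ≤ ε ^ 2 := by linarith
        exact abs_le_of_sq_le_sq' this hε.le |>.2) (by
        intro q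
        obtain ⟨k1, k3, k4, k6, k7⟩ := key q
        unfold thF
        have := sq_nonneg ‖HS (n := 2) (fun (q : S2) (_ : ℝ) => F q t) q 0‖
        linarith) (by
        intro q
        obtain ⟨k1, k3, k4, k6, k7⟩ := key q
        unfold YF
        have := sq_nonneg ‖HS (n := 2) (fun (q : S2) (_ : ℝ) => F q t) q 0‖
        rw [abs_le]
        constructor <;> linarith) (by
        refine (har t t4).trans ?_
        have := hen t t4
        linarith)
    exact ⟨fun q => F q t, L, fun q => (hest t ht0 q).1.trans t1.le, hL1, hL2⟩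
  obtain ⟨L, hL⟩ := hsph
  -- injectivity
  have ev : ∀ᶠ t : ℝ in atTop, 1 ≤ t ∧ C1 * (Real.exp (-4 * t) / 4) ^ δ < 16 * Real.pi :=
    (eventually_ge_atTop 1).and (l2.eventually_lt_const (by positivity))
  obtain ⟨ts, hts⟩ := eventually_atTop.1 ev
  refine ⟨G, L, C, α, ts, hG, hL, hα, ?_, hest⟩
  intro t ht
  obtain ⟨t1, t2⟩ := hts t ht
  obtain ⟨a1, a2, a3, a4⟩ := hτ t t1
  have hinj := hINJ N S2 (Ioo 0 (1 / 4)) (FEs F) c χ hDat.su.toJ (sgT t)
    ⟨by linarith [a1.1], a1.2⟩ (by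
      rw [hgb t t1]
      have := hen t t1
      linarith)
  intro p q hpq
  apply hinj
  show FEs F p (sgT t) = FEs F q (sgT t)
  rw [hsc t t1, hsc t t1]
  exact congrArg _ hpq

end Helper76.MS
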