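import Pool.Agent.Helper35.MS.StJ

/-!
Module PRJ of project MS (MP_925021_gt): product rules and the position field, arbitrary open set of
times.
-/

set_option autoImplicit false

namespace Helper76.MS

open Helper35.MS Helper35.PI Helper35.PI2 Helper32.CL Pool.Agent.Helper35.CL
open scoped ContDiff Manifold Topology ENNReal BigOperators
open MeasureTheory Set Filter

namespace PRJ

section loc

variable {n N : ℕ} (f : EE n → EE N) (x : EE n)

/-- tangential part -/
theorem tan_eq (v : EE N) : v - nrm f x v =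
    ∑ k, ∑ l, ((gram f x)⁻¹ k l * inner ℝ v (dv1 f x k)) • dv1 f x l := by
  unfold nrm
  abel

theorem tan_orth (hNR : StNR) (hLI : LI f x) (v w : EE N) :
    (inner ℝ (nrm f x v) (w - nrm f x w) : ℝ) = 0 := by
  obtain ⟨_, h2, h3, _, _, _, h7, _⟩ := hNR n N f x hLI
  rw [h7, h2 _ (h3 w), inner_zero_right]

theorem pyth (hNR : StNR) (hLI : LI f x) (v : EE N) :
    ‖v‖ ^ 2 = ‖v - nrm f x v‖ ^ 2 + ‖nrm f x v‖ ^ 2 := by
  have h1 : v = (v - nrm f x v) + nrm f x v := by abel
  have h2 : (inner ℝ (v - nrm f x v) (nrm f x v) : ℝ) = 0 := by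
    rw [real_inner_comm]; exact tan_orth f x hNR hLI v v
  have h3 := norm_add_sq_real (v - nrm f x v) (nrm f x v)
  rw [← h1, h2] at h3
  linarith

theorem mcv_nrm (hNR : StNR) (hLI : LI f x) : nrm f x (mcv f x) = mcv f x := by
  obtain ⟨h1, _, _, h4, _⟩ := hNR n N f x hLI
  apply h4
  intro i
  unfold mcv
  rw [sum_inner]
  apply Finset.sum_eq_zero
  intro a _
  rw [sum_inner]
  apply Finset.sum_eq_zero
  intro b _
  rw [real_inner_smul_left]
  unfold sff
  rw [h1, mul_zero]

theorem trace_gram (hFR : StFR) (hLI : LI f x) :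
    ∑ i, ∑ j, (gram f x)⁻¹ i j * gram f x i j = n := by
  obtain ⟨_, hu, _⟩ := hFR n N f x hLI
  have h1 : (gram f x)⁻¹ * gram f x = 1 := Matrix.nonsing_inv_mul _ hu
  have hsymm : ∀ i j, gram f x i j = gram f x j i := by
    intro i j
    simp only [gram, Matrix.of_apply]
    rw [real_inner_comm]
  have h2 : ∀ i, ∑ j, (gram f x)⁻¹ i j * gram f x i j = 1 := by
    intro i
    have h3 := congrFun (congrFun h1 i) i
    rw [Matrix.mul_apply, Matrix.one_apply_eq] at h3
    rw [← h3]
    apply Finset.sum_congr rfl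
    intro j _
    rw [hsymm i j]
  rw [Finset.sum_congr rfl (fun i _ => h2 i)]
  simp

theorem quad_eq (hNR : StNR) (hLI : LI f x) (v : EE N) :
    ∑ i, ∑ j, (gram f x)⁻¹ i j * (inner ℝ v (dv1 f x i) * inner ℝ v (dv1 f x j)) =
      ‖v - nrm f x v‖ ^ 2 := by
  have h0 : (inner ℝ v (v - nrm f x v) : ℝ) = ‖v - nrm f x v‖ ^ 2 := by
    have h1 : (inner ℝ v (v - nrm f x v) : ℝ) =
        inner ℝ (v - nrm f x v) (v - nrm f x v) + inner ℝ (nrm f x v) (v - nrm f x v) := by
      rw [← inner_add_left]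
      congr 1
      abel
    rw [h1, tan_orth f x hNR hLI, add_zero, real_inner_self_eq_norm_sq]
  rw [← h0]
  conv_rhs => rw [tan_eq f x v]
  rw [inner_sum]
  apply Finset.sum_congr rfl
  intro i _
  rw [inner_sum]
  apply Finset.sum_congr rfl
  intro j _
  rw [real_inner_smul_right]
  ring

theorem der_field (y : EE N) (ζ : ℝ → ℝ) (hζ : ContDiff ℝ 1 ζ) (hd : DifferentiableAt ℝ f x)
    (v : EE n) :
    fderiv ℝ (fun z => ζ (‖f z - y‖ ^ 2) • (f z - y)) x v =
      ζ (‖f x - y‖ ^ 2) • fderiv ℝ f x v +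
        (2 * deriv ζ (‖f x - y‖ ^ 2) * inner ℝ (f x - y) (fderiv ℝ f x v)) • (f x - y) := by
  have h1 : HasFDerivAt (fun z => f z - y) (fderiv ℝ f x) x := hd.hasFDerivAt.sub_const y
  have h2 := h1.norm_sq
  have h3 : HasDerivAt ζ (deriv ζ (‖f x - y‖ ^ 2)) (‖f x - y‖ ^ 2) :=
    (hζ.differentiable (by norm_num)).differentiableAt.hasDerivAt
  have h4 := h3.comp_hasFDerivAt x h2
  have h6 := h4.smul h1
  have e : (fun z => ζ (‖f z - y‖ ^ 2) • (f z - y)) =
      ((ζ ∘ fun z => ‖f z - y‖ ^ 2) • fun z => f z - y) := rfl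
  rw [e, h6.fderiv]
  simp only [Function.comp_apply, add_apply, smul_apply,
    ContinuousLinearMap.smulRight_apply, ContinuousLinearMap.comp_apply, innerSL_apply_apply,
    smul_eq_mul]
  congr 2
  simp only [nsmul_eq_mul]
  push_cast
  ring

end loc

theorem one_le_inf : (1 : WithTop ℕ∞) ≤ ((⊤ : ℕ∞) : WithTop ℕ∞) := by
  have : ((1 : ℕ∞) : WithTop ℕ∞) ≤ ((⊤ : ℕ∞) : WithTop ℕ∞) := WithTop.coe_le_coe.2 le_top
  exact this

theorem diff_chart {n : ℕ} {M : Type} [TopologicalSpace M] [ChartedSpace (EE n) M]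
    [IsManifold (𝓡 n) ∞ M] {V : Type} [NormedAddCommGroup V] [NormedSpace ℝ V] (X : M → V)
    (hX : ContMDiff (𝓡 n) 𝓘(ℝ, V) 1 X) (q : M) :
    DifferentiableAt ℝ (fun y => X ((chartAt (EE n) q).symm y)) (chartAt (EE n) q q) := by
  have hxt : chartAt (EE n) q q ∈ (chartAt (EE n) q).target := mem_chart_target (EE n) q
  have hs : ContMDiffAt (𝓡 n) (𝓡 n) 1 (chartAt (EE n) q).symm (chartAt (EE n) q q) := by
    have := (contMDiffOn_chart_symm (I := 𝓡 n) (n := ∞) (H := EE n) (x := q)).contMDiffAt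
      ((chartAt (EE n) q).open_target.mem_nhds hxt)
    exact this.of_le one_le_inf
  have hV' : ContMDiffAt (𝓡 n) 𝓘(ℝ, V) 1 X ((chartAt (EE n) q).symm (chartAt (EE n) q q)) := hX _
  have h := ContMDiffAt.comp (chartAt (EE n) q q) hV' hs
  have h5 : ContDiffAt ℝ 1 (fun y => X ((chartAt (EE n) q).symm y)) (chartAt (EE n) q q) :=
    contMDiffAt_iff_contDiffAt.mp h
  exact h5.differentiableAt (by norm_num)

/-- derivative of a function of the distance -/
theorem der_dist {n N : ℕ} (f : EE n → EE N) (x : EE n) (y : EE N) (ζ : ℝ → ℝ)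
    (hζ : ContDiff ℝ 1 ζ) (hd : DifferentiableAt ℝ f x) (v : EE n) :
    fderiv ℝ (fun z => ζ (‖f z - y‖ ^ 2)) x v =
      2 * deriv ζ (‖f x - y‖ ^ 2) * inner ℝ (f x - y) (fderiv ℝ f x v) := by
  have h1 : HasFDerivAt (fun z => f z - y) (fderiv ℝ f x) x := hd.hasFDerivAt.sub_const y
  have h2 := h1.norm_sq
  have h3 : HasDerivAt ζ (deriv ζ (‖f x - y‖ ^ 2)) (‖f x - y‖ ^ 2) :=
    (hζ.differentiable (by norm_num)).differentiableAt.hasDerivAt
  have h4 := h3.comp_hasFDerivAt x h2
  have e : (fun z => ζ (‖f z - y‖ ^ 2)) = (ζ ∘ fun z => ‖f z - y‖ ^ 2) := rfl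
  rw [e, h4.fderiv]
  simp only [smul_apply, ContinuousLinearMap.comp_apply, innerSL_apply_apply, smul_eq_mul,
    nsmul_eq_mul]
  push_cast
  ring

/-- the gradient is a tangential combination -/
theorem gdM_mem {n N : ℕ} {M : Type} [TopologicalSpace M] [ChartedSpace (EE n) M]
    (F : M → ℝ → EE N) (t : ℝ) (h : M → ℝ) (q : M) :
    gdM n F t h q ∈ Submodule.span ℝ
      (range fun i => dv1 (loc (n := n) F q t) (chartAt (EE n) q q) i) := by
  unfold gdM
  apply Submodule.sum_mem
  intro k _
  apply Submodule.sum_mem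
  intro m _
  apply Submodule.smul_mem
  exact Submodule.subset_span ⟨m, rfl⟩

end PRJ

open PRJ

theorem hPRJ (hNR : StNR) (hFR : StFR) : StPRJ := by
  intro n N M _ _ _ J F hF t ht
  have hG : ContMDiff (𝓡 n) 𝓘(ℝ, EE N) ∞ (fun q => F q t) := by
    have h1 : ContMDiff (𝓡 n) ((𝓡 n).prod 𝓘(ℝ, ℝ)) ∞ (fun q : M => (q, t)) :=
      contMDiff_id.prodMk contMDiff_const
    exact hF.smooth.comp_contMDiff h1 (fun q => ⟨mem_univ _, ht⟩)
  have hG1 : ContMDiff (𝓡 n) 𝓘(ℝ, EE N) 1 (fun q => F q t) := hG.of_le one_le_inf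
  refine ⟨?_, ?_, ?_, ?_, ?_⟩
  · intro h hh X hX q
    obtain ⟨x, hx⟩ : ∃ x, x = chartAt (EE n) q q := ⟨_, rfl⟩
    obtain ⟨f, hf⟩ : ∃ f, f = loc (n := n) F q t := ⟨_, rfl⟩
    have hleft : (chartAt (EE n) q).symm x = q := by
      rw [hx]; exact (chartAt (EE n) q).left_inv (mem_chart_source (EE n) q)
    obtain ⟨a, ha⟩ : ∃ a : EE n → ℝ, a = fun y => h ((chartAt (EE n) q).symm y) := ⟨_, rfl⟩
    obtain ⟨g, hg⟩ : ∃ g : EE n → EE N, g = fun y => X ((chartAt (EE n) q).symm y) := ⟨_, rfl⟩
    have had : DifferentiableAt ℝ a x := by rw [ha, hx]; exact diff_chart h hh q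
    have hgd : DifferentiableAt ℝ g x := by rw [hg, hx]; exact diff_chart X hX q
    have hax : a x = h q := by rw [ha]; simp only [hleft]
    have hgx : g x = X q := by rw [hg]; simp only [hleft]
    have e : (fun y => (fun q => h q • X q) ((chartAt (EE n) q).symm y)) = fun y => a y • g y := by
      rw [ha, hg]
    have hder : ∀ v, fderiv ℝ (fun y => a y • g y) x v =
        h q • fderiv ℝ g x v + (fderiv ℝ a x v) • X q := by
      intro v
      have h6 := had.hasFDerivAt.smul hgd.hasFDerivAt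
      have e1 : (fun y => a y • g y) = (a • g) := rfl
      rw [e1, h6.fderiv, hax, hgx]
      simp only [add_apply, smul_apply, ContinuousLinearMap.smulRight_apply]
    unfold dvg gdM
    rw [← hx, ← hf, e, ← hg, ← ha, sum_inner, Finset.mul_sum, ← Finset.sum_add_distrib]
    apply Finset.sum_congr rfl
    intro i _
    rw [sum_inner, Finset.mul_sum, ← Finset.sum_add_distrib]
    apply Finset.sum_congr rfl
    intro j _
    rw [hder, inner_add_left, real_inner_smul_left, real_inner_smul_left, real_inner_smul_left,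
      real_inner_comm (X q)]
    ring
  · intro h q
    exact gdM_mem F t h q
  · intro h₁ h₂ hh₁ hh₂ q
    have hleft : (chartAt (EE n) q).symm (chartAt (EE n) q q) = q :=
      (chartAt (EE n) q).left_inv (mem_chart_source (EE n) q)
    have d1 := (diff_chart h₁ hh₁ q).hasFDerivAt
    have d2 := (diff_chart h₂ hh₂ q).hasFDerivAt
    have hder : ∀ v, fderiv ℝ (fun y => (fun q => h₁ q * h₂ q) ((chartAt (EE n) q).symm y))
        (chartAt (EE n) q q) v =
        h₁ q * fderiv ℝ (fun y => h₂ ((chartAt (EE n) q).symm y)) (chartAt (EE n) q q) v +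
        h₂ q * fderiv ℝ (fun y => h₁ ((chartAt (EE n) q).symm y)) (chartAt (EE n) q q) v := by
      intro v
      have d3 := d1.mul d2
      have e1 : (fun y => (fun q => h₁ q * h₂ q) ((chartAt (EE n) q).symm y)) =
          ((fun y => h₁ ((chartAt (EE n) q).symm y)) * fun y => h₂ ((chartAt (EE n) q).symm y)) :=
        rfl
      rw [e1, d3.fderiv]
      simp only [add_apply, smul_apply, smul_eq_mul, hleft]
    unfold gdM
    simp only [hder]
    rw [Finset.smul_sum, Finset.smul_sum, ← Finset.sum_add_distrib]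
    refine Finset.sum_congr rfl fun k _ => ?_
    rw [Finset.smul_sum, Finset.smul_sum, ← Finset.sum_add_distrib]
    refine Finset.sum_congr rfl fun m _ => ?_
    rw [smul_smul, smul_smul, ← add_smul]
    congr 1
    ring
  · intro h hh ζ hζ q
    have hleft : (chartAt (EE n) q).symm (chartAt (EE n) q q) = q :=
      (chartAt (EE n) q).left_inv (mem_chart_source (EE n) q)
    have d1 := (diff_chart h hh q).hasFDerivAt
    have hder : ∀ v, fderiv ℝ (fun y => (fun q => ζ (h q)) ((chartAt (EE n) q).symm y))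
        (chartAt (EE n) q q) v =
        deriv ζ (h q) * fderiv ℝ (fun y => h ((chartAt (EE n) q).symm y)) (chartAt (EE n) q q) v := by
      intro v
      have h3 : HasDerivAt ζ (deriv ζ (h ((chartAt (EE n) q).symm (chartAt (EE n) q q))))
          (h ((chartAt (EE n) q).symm (chartAt (EE n) q q))) :=
        (hζ.differentiable (by norm_num)).differentiableAt.hasDerivAt
      have d3 := h3.comp_hasFDerivAt (chartAt (EE n) q q) d1
      have e1 : (fun y => (fun q => ζ (h q)) ((chartAt (EE n) q).symm y)) =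
          (ζ ∘ fun y => h ((chartAt (EE n) q).symm y)) := rfl
      rw [e1, d3.fderiv]
      simp only [smul_apply, smul_eq_mul, hleft]
    unfold gdM
    simp only [hder]
    rw [Finset.smul_sum]
    refine Finset.sum_congr rfl fun k _ => ?_
    rw [Finset.smul_sum]
    refine Finset.sum_congr rfl fun m _ => ?_
    rw [smul_smul]
    congr 1
    ring
  · intro y
    refine ⟨fun q => ‖(F q t - y) - nrm (loc (n := n) F q t) (chartAt (EE n) q q) (F q t - y)‖ ^ 2,
      ?_, ?_, ?_⟩
    · intro q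
      have hLI : LI (loc (n := n) F q t) (chartAt (EE n) q q) := hF.imm q t ht
      have hp := pyth _ _ hNR hLI (F q t - y)
      refine ⟨by positivity, ?_, ?_⟩
      · nlinarith [sq_nonneg ‖nrm (loc (n := n) F q t) (chartAt (EE n) q q) (F q t - y)‖]
      · have h1 : (inner ℝ (HH (n := n) F q t) (F q t - y) : ℝ) =
            inner ℝ (HH (n := n) F q t)
              (nrm (loc (n := n) F q t) (chartAt (EE n) q q) (F q t - y)) := by
          have h2 := (hNR n N _ _ hLI).2.2.2.2.2.2.1
            (mcv (loc (n := n) F q t) (chartAt (EE n) q q)) (F q t - y)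
          rw [mcv_nrm _ _ hNR hLI] at h2
          exact h2
        rw [h1, hp]
        have h3 := abs_real_inner_le_norm (HH (n := n) F q t)
          (nrm (loc (n := n) F q t) (chartAt (EE n) q q) (F q t - y))
        have h4 : (inner ℝ (HH (n := n) F q t)
            (nrm (loc (n := n) F q t) (chartAt (EE n) q q) (F q t - y)) : ℝ) ^ 2 ≤
            (‖HH (n := n) F q t‖ *
              ‖nrm (loc (n := n) F q t) (chartAt (EE n) q q) (F q t - y)‖) ^ 2 := by
          rw [← sq_abs]
          exact pow_le_pow_left₀ (abs_nonneg _) h3 2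
        refine h4.trans (le_of_eq ?_)
        ring
    · intro h _ q
      have hLI : LI (loc (n := n) F q t) (chartAt (EE n) q q) := hF.imm q t ht
      have hNR' := hNR n N _ _ hLI
      have hspan := gdM_mem (n := n) F t h q
      have h0 := hNR'.2.1 _ hspan
      have h2 := hNR'.2.2.2.2.2.2.1 (gdM n F t h q) (F q t - y)
      rw [h0, inner_zero_left] at h2
      have h3 : (inner ℝ (gdM n F t h q) (F q t - y) : ℝ) = inner ℝ (gdM n F t h q)
          ((F q t - y) - nrm (loc (n := n) F q t) (chartAt (EE n) q q) (F q t - y)) := by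
        rw [inner_sub_right (gdM n F t h q) (F q t - y)
          (nrm (loc (n := n) F q t) (chartAt (EE n) q q) (F q t - y)), ← h2, sub_zero]
      rw [h3, Real.sqrt_sq (norm_nonneg _)]
      exact abs_real_inner_le_norm _ _
    · intro ζ hζ
      have hF1 : ContMDiff (𝓡 n) 𝓘(ℝ, EE N) 1 (fun q => F q t - y) := hG1.sub contMDiff_const
      have h2 : ContDiff ℝ 1 (fun e : EE N => ζ (‖e‖ ^ 2)) := hζ.comp (contDiff_norm_sq ℝ)
      have h3 : ContMDiff (𝓡 n) 𝓘(ℝ, ℝ) 1 (fun q => ζ (‖F q t - y‖ ^ 2)) :=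
        h2.contMDiff.comp hF1
      refine ⟨h3.smul hF1, h3, ?_, ?_⟩
      · intro q V hV
        have hLI : LI (loc (n := n) F q t) (chartAt (EE n) q q) := hF.imm q t ht
        have hd : DifferentiableAt ℝ (loc (n := n) F q t) (chartAt (EE n) q q) :=
          diff_chart (fun q => F q t) hG1 q
        have hleft : (chartAt (EE n) q).symm (chartAt (EE n) q q) = q :=
          (chartAt (EE n) q).left_inv (mem_chart_source (EE n) q)
        have hfx : loc (n := n) F q t (chartAt (EE n) q q) = F q t := by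
          unfold loc
          rw [hleft]
        obtain ⟨x, hx⟩ : ∃ x, x = chartAt (EE n) q q := ⟨_, rfl⟩
        obtain ⟨f, hf⟩ : ∃ f, f = loc (n := n) F q t := ⟨_, rfl⟩
        have e : (fun z => (fun q => ζ (‖F q t - y‖ ^ 2)) ((chartAt (EE n) q).symm z)) =
            fun z => ζ (‖f z - y‖ ^ 2) := by
          rw [hf]
          rfl
        have hV' : V ∈ Submodule.span ℝ (range fun i => dv1 f x i) := by
          rw [hf, hx]
          exact hV
        unfold gdM
        rw [e, ← hx, ← hf]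
        rw [← hx, ← hf] at hfx hLI hd
        have e2 : ∑ k, ∑ m, ((gram f x)⁻¹ k m *
            fderiv ℝ (fun z => ζ (‖f z - y‖ ^ 2)) x (ee k)) • dv1 f x m =
            (2 * deriv ζ (‖F q t - y‖ ^ 2)) • ((F q t - y) - nrm f x (F q t - y)) := by
          rw [tan_eq f x, Finset.smul_sum]
          refine Finset.sum_congr rfl fun k _ => ?_
          rw [Finset.smul_sum]
          refine Finset.sum_congr rfl fun m _ => ?_
          rw [der_dist f x y ζ hζ hd, hfx, smul_smul]
          congr 1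
          unfold dv1
          ring
        rw [e2, real_inner_smul_left, inner_sub_left]
        have h7 := (hNR n N f x hLI).2.2.2.2.2.2.1 (F q t - y) V
        rw [(hNR n N f x hLI).2.1 V hV', inner_zero_right] at h7
        rw [h7, sub_zero]
      · intro q
        have hLI : LI (loc (n := n) F q t) (chartAt (EE n) q q) := hF.imm q t ht
        have hd : DifferentiableAt ℝ (loc (n := n) F q t) (chartAt (EE n) q q) :=
          diff_chart (fun q => F q t) hG1 q
        have hleft : (chartAt (EE n) q).symm (chartAt (EE n) q q) = q :=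
          (chartAt (EE n) q).left_inv (mem_chart_source (EE n) q)
        have hfx : loc (n := n) F q t (chartAt (EE n) q q) = F q t := by
          unfold loc
          rw [hleft]
        obtain ⟨x, hx⟩ : ∃ x, x = chartAt (EE n) q q := ⟨_, rfl⟩
        obtain ⟨f, hf⟩ : ∃ f, f = loc (n := n) F q t := ⟨_, rfl⟩
        have e : (fun z => (fun q => ζ (‖F q t - y‖ ^ 2) • (F q t - y))
            ((chartAt (EE n) q).symm z)) = fun z => ζ (‖f z - y‖ ^ 2) • (f z - y) := by
          rw [hf]
          rfl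
        unfold dvg
        rw [e]
        beta_reduce
        rw [← hx, ← hf]
        rw [← hx, ← hf] at hfx hLI hd
        simp only [der_field f x y ζ hζ hd, hfx, inner_add_left, real_inner_smul_left]
        rw [← quad_eq f x hNR hLI (F q t - y)]
        have h1 := trace_gram f x hFR hLI
        have e2 : ∀ i j, (gram f x)⁻¹ i j * (ζ (‖F q t - y‖ ^ 2) *
            (inner ℝ (fderiv ℝ f x (ee i)) (dv1 f x j) : ℝ) +
            2 * deriv ζ (‖F q t - y‖ ^ 2) * inner ℝ (F q t - y) (fderiv ℝ f x (ee i)) *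
              inner ℝ (F q t - y) (dv1 f x j)) =
            ζ (‖F q t - y‖ ^ 2) * ((gram f x)⁻¹ i j * gram f x i j) +
            (2 * deriv ζ (‖F q t - y‖ ^ 2)) * ((gram f x)⁻¹ i j *
              ((inner ℝ (F q t - y) (dv1 f x i) : ℝ) * inner ℝ (F q t - y) (dv1 f x j))) := by
          intro i j
          change _ = ζ (‖F q t - y‖ ^ 2) * ((gram f x)⁻¹ i j *
            (inner ℝ (fderiv ℝ f x (ee i)) (dv1 f x j) : ℝ)) +
            (2 * deriv ζ (‖F q t - y‖ ^ 2)) * ((gram f x)⁻¹ i j *
              ((inner ℝ (F q t - y) (fderiv ℝ f x (ee i)) : ℝ) *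
                inner ℝ (F q t - y) (dv1 f x j)))
          ring
        simp only [e2, Finset.sum_add_distrib, ← Finset.mul_sum]
        rw [h1]
        ring

end Helper76.MS
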